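import Mathlib

set_option autoImplicit false

namespace Pool.Agent.Results.MP_6a28f0_gt.Scheepers

open Filter Topology Set

universe u

def Cover {X : Type u} [TopologicalSpace X] (𝓤 : Set (Set X)) : Prop :=
  (∀ U ∈ 𝓤, IsOpen U) ∧ ⋃₀ 𝓤 = univ

def WL (X : Type u) [TopologicalSpace X] : Prop :=
  ∀ 𝓤 : Set (Set X), Cover 𝓤 → ∃ 𝓥 ⊆ 𝓤, 𝓥.Countable ∧ Dense (⋃₀ 𝓥)

def ProdWL (X : Type u) [TopologicalSpace X] : Prop :=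
  ∀ (Y : Type u) [TopologicalSpace Y], WL Y → WL (X × Y)

def WS (X : Type u) [TopologicalSpace X] : Prop :=
  ∀ 𝓤 : ℕ → Set (Set X), (∀ n, Cover (𝓤 n)) → ∃ 𝓥 : ℕ → Set (Set X),
    (∀ n, 𝓥 n ⊆ 𝓤 n ∧ (𝓥 n).Finite) ∧ ∀ 𝓕 : Set (Set X), 𝓕.Finite →
      (∀ W ∈ 𝓕, IsOpen W ∧ W.Nonempty) → {n | ∀ W ∈ 𝓕, (W ∩ ⋃₀ 𝓥 n).Nonempty}.Infinite

theorem exsub {α β : Type u} {s : Set α} {t : Set β} {f : α → β} (h : t ⊆ f '' s)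
    (ht : t.Countable) : ∃ w ⊆ s, w.Countable ∧ t = f '' w := by
  choose g h1 h2 using h
  haveI := ht.to_subtype
  refine ⟨range fun b : t => g b.2, by rintro _ ⟨b, rfl⟩; exact h1 b.2, countable_range _, ?_⟩
  ext b
  exact ⟨fun hb => ⟨_, ⟨⟨b, hb⟩, rfl⟩, h2 hb⟩, by rintro ⟨_, ⟨c, rfl⟩, rfl⟩; rw [h2]; exact c.2⟩

theorem WL.image {A B : Type u} [TopologicalSpace A] [TopologicalSpace B] (h : WL A) {p : A → B}
    (hp : Continuous p) (hs : Function.Surjective p) : WL B := by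
  intro 𝓤 hU
  obtain ⟨𝓥, h1, h2, h3⟩ := h ((fun U => p ⁻¹' U) '' 𝓤) ⟨by
    rintro _ ⟨U, hU', rfl⟩; exact (hU.1 U hU').preimage hp, eq_univ_of_forall fun a => by
      obtain ⟨U, h1, h2⟩ : p a ∈ ⋃₀ 𝓤 := hU.2 ▸ mem_univ _
      exact ⟨_, ⟨U, h1, rfl⟩, h2⟩⟩
  obtain ⟨𝓦, h4, h5, rfl⟩ := exsub h1 h2
  refine ⟨𝓦, h4, h5, (hs.denseRange.dense_image hp h3).mono ?_⟩
  rintro _ ⟨a, ⟨_, ⟨U, h6, rfl⟩, h7⟩, rfl⟩
  exact ⟨U, h6, h7⟩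

section Y
variable {X : Type u} (𝓤 : ℕ → Set (Set X))

def Sl : Type u := {f : ℕ → Set (Set X) × ℕ // ∀ n, (f n).1 ⊆ 𝓤 n ∧ (f n).1.Finite}

def Yy : Type u := Sl 𝓤 ⊕ Sl 𝓤 ⊕ ℕ

def Lt {𝓤 : ℕ → Set (Set X)} (a f : Sl 𝓤) (n : ℕ) : Prop :=
  (a.1 n).1 ⊆ (f.1 n).1 ∧ (a.1 n).2 < (f.1 n).2

def z0 : Sl 𝓤 := ⟨fun _ => (∅, 0), fun _ => ⟨empty_subset _, finite_empty⟩⟩

def up {𝓤 : ℕ → Set (Set X)} (a : Sl 𝓤) : Sl 𝓤 := ⟨fun n => ((a.1 n).1, (a.1 n).2 + 1), a.2⟩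

instance : TopologicalSpace (Yy 𝓤) where
  IsOpen O := (∀ a, Sum.inr (Sum.inl a) ∈ O → ∀ f : Sl 𝓤, (∀ n, ¬ Lt a f n) → Sum.inl f ∈ O) ∧
    ∀ n, Sum.inr (Sum.inr n) ∈ O → ∃ a : Sl 𝓤, ∀ f : Sl 𝓤, Lt a f n → Sum.inl f ∈ O
  isOpen_univ := ⟨fun _ _ _ _ => trivial, fun _ _ => ⟨z0 𝓤, fun _ _ => trivial⟩⟩
  isOpen_inter O O' h h' := ⟨fun a ha f hf => ⟨h.1 a ha.1 f hf, h'.1 a ha.2 f hf⟩, fun n hn => by
    obtain ⟨a, ha⟩ := h.2 n hn.1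
    obtain ⟨b, hb⟩ := h'.2 n hn.2
    exact ⟨⟨fun n => a.1 n ⊔ b.1 n, fun n => ⟨union_subset (a.2 n).1 (b.2 n).1,
      (a.2 n).2.union (b.2 n).2⟩⟩, fun f hf =>
        ⟨ha f ⟨subset_union_left.trans hf.1, (le_max_left _ _).trans_lt hf.2⟩,
        hb f ⟨subset_union_right.trans hf.1, (le_max_right _ _).trans_lt hf.2⟩⟩⟩⟩
  isOpen_sUnion S h := ⟨fun a ⟨O, hO, ha⟩ f hf => ⟨O, hO, (h O hO).1 a ha f hf⟩,
    fun n ⟨O, hO, hn⟩ => ((h O hO).2 n hn).imp fun _ ha f hf => ⟨O, hO, ha f hf⟩⟩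

theorem Y_wl : WL (Yy 𝓤) := by
  intro 𝓞 hO
  have hc : ∀ y, ∃ O ∈ 𝓞, y ∈ O := fun y => show y ∈ ⋃₀ 𝓞 from hO.2 ▸ mem_univ _
  choose O h1 h2 using hc
  choose a ha using fun n => (hO.1 _ (h1 (Sum.inr (Sum.inr n)))).2 n (h2 _)
  let b : Sl 𝓤 := ⟨fun n => (a n).1 n, fun n => (a n).2 n⟩
  refine ⟨O '' (insert (Sum.inr (Sum.inl b)) (range fun n => Sum.inr (Sum.inr n))),
    by rintro _ ⟨y, -, rfl⟩; exact h1 y, ((countable_range _).insert _).image _, ?_⟩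
  have h3 : ∀ f : Sl 𝓤, (Sum.inl f : Yy 𝓤) ∈
      ⋃₀ (O '' (insert (Sum.inr (Sum.inl b)) (range fun n => Sum.inr (Sum.inr n)))) := by
    intro f
    by_cases h : ∃ n, Lt b f n
    · obtain ⟨n, hn⟩ := h
      exact ⟨_, ⟨_, Or.inr ⟨n, rfl⟩, rfl⟩, ha n f hn⟩
    · exact ⟨_, ⟨_, Or.inl rfl, rfl⟩, (hO.1 _ (h1 _)).1 b (h2 _) f (not_exists.1 h)⟩
  refine dense_iff_inter_open.2 ?_
  rintro W hW ⟨f | c | n, hy⟩
  · exact ⟨_, hy, h3 f⟩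
  · exact ⟨_, hW.1 c hy (z0 𝓤) fun n h => Nat.not_lt_zero _ h.2, h3 _⟩
  · obtain ⟨c, hc⟩ := hW.2 n hy
    exact ⟨_, hc (up c) ⟨subset_rfl, Nat.lt_succ_self _⟩, h3 _⟩

def Nr {𝓤 : ℕ → Set (Set X)} (a : Sl 𝓤) : Set (Yy 𝓤) :=
  insert (Sum.inr (Sum.inl a)) (Sum.inl '' {f | ∀ n, ¬ Lt a f n})

def Nq {𝓤 : ℕ → Set (Set X)} (a : Sl 𝓤) (n : ℕ) : Set (Yy 𝓤) :=
  insert (Sum.inr (Sum.inr n)) (Sum.inl '' {f | Lt a f n})

theorem Nr_open (a : Sl 𝓤) : IsOpen (Nr a) := by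
  refine ⟨fun b hb f hf => ?_, fun n hn => ?_⟩
  · rcases hb with hb | ⟨_, -, hb⟩ <;> cases hb
    exact Or.inr ⟨f, hf, rfl⟩
  · rcases hn with hb | ⟨_, -, hb⟩ <;> cases hb

theorem Nq_open (a : Sl 𝓤) (n : ℕ) : IsOpen (Nq a n) := by
  refine ⟨fun b hb f hf => ?_, fun n hn => ?_⟩
  · rcases hb with hb | ⟨_, -, hb⟩ <;> cases hb
  · rcases hn with hb | ⟨_, -, hb⟩ <;> cases hb
    exact ⟨a, fun f hf => Or.inr ⟨f, hf, rfl⟩⟩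

theorem iso_open (f : Sl 𝓤) : IsOpen ({Sum.inl f} : Set (Yy 𝓤)) :=
  ⟨fun _ hb => (by cases hb), fun _ hb => by cases hb⟩

end Y

variable {X : Type u} [TopologicalSpace X]

theorem pow_wl (h : ProdWL X) (Y : Type u) [TopologicalSpace Y] (hY : WL Y) (m : ℕ) :
    WL ((Fin m → X) × Y) := by
  induction m with
  | zero =>
    exact hY.image (p := fun y => (Fin.elim0, y)) (by fun_prop)
      fun ⟨a, y⟩ => ⟨y, Prod.ext (Subsingleton.elim _ _) rfl⟩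
  | succ m ih =>
    refine (h _ ih).image (p := fun q => ((Fin.cons q.1 q.2.1 : Fin (m + 1) → X), q.2.2)) ?_
      fun ⟨a, y⟩ => ⟨(a 0, Fin.tail a, y), by simp⟩
    refine Continuous.prodMk (continuous_pi fun i => ?_) (by fun_prop)
    refine Fin.cases ?_ (fun i => ?_) i
    · simpa using continuous_fst
    · simp only [Fin.cons_succ]; fun_prop

theorem sel (h : ProdWL X) (𝓤 : ℕ → Set (Set X)) (hU : ∀ n, Cover (𝓤 n)) (m : ℕ) :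
    ∃ f : Sl 𝓤, ∀ W : Fin m → Set X, (∀ i, IsOpen (W i) ∧ (W i).Nonempty) →
      ∃ n, ∀ i, (W i ∩ ⋃₀ (f.1 n).1).Nonempty := by
  let B : Sl 𝓤 × Option ℕ → Set ((Fin m → X) × Yy 𝓤) := fun q => match q.2 with
    | none => univ ×ˢ Nr q.1
    | some n => (univ.pi fun _ => ⋃₀ (q.1.1 n).1) ×ˢ Nq q.1 n
  obtain ⟨𝓥, h1, h2, h3⟩ := pow_wl h _ (Y_wl 𝓤) m (range B) ⟨by
    rintro _ ⟨⟨a, _ | n⟩, rfl⟩
    · exact isOpen_univ.prod (Nr_open _ a)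
    · exact (isOpen_set_pi finite_univ fun _ _ => isOpen_sUnion fun U hU' =>
        (hU n).1 U ((a.2 n).1 hU')).prod (Nq_open _ a n), eq_univ_of_forall (by
    rintro ⟨x, f | c | n⟩
    · exact ⟨_, ⟨(f, none), rfl⟩, trivial, Or.inr ⟨f, fun n h => lt_irrefl _ h.2, rfl⟩⟩
    · exact ⟨_, ⟨(c, none), rfl⟩, trivial, Or.inl rfl⟩
    · have hc : ∀ i, ∃ U ∈ 𝓤 n, x i ∈ U := fun i => show x i ∈ ⋃₀ 𝓤 n from (hU n).2 ▸ mem_univ _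
      choose U h1 h2 using hc
      refine ⟨_, ⟨(⟨fun k => (range U ∩ 𝓤 k, 0), fun k =>
        ⟨inter_subset_right, (finite_range U).inter_of_left _⟩⟩, some n), rfl⟩,
        fun i _ => ⟨U i, ⟨⟨i, rfl⟩, h1 i⟩, h2 i⟩, Or.inl rfl⟩)⟩
  rw [← image_univ] at h1
  obtain ⟨w, -, hw, rfl⟩ := exsub h1 h2
  obtain ⟨c, hc⟩ := (hw.insert (z0 𝓤, none)).exists_eq_range (insert_nonempty _ _)
  let f : Sl 𝓤 := up ⟨fun n => (c n).1.1 n, fun n => (c n).1.2 n⟩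
  refine ⟨f, fun W hW => ?_⟩
  obtain ⟨⟨x, y⟩, ⟨h4, h5⟩, _, ⟨⟨a, o⟩, h6, rfl⟩, h7⟩ := h3.inter_open_nonempty
    (univ.pi W ×ˢ {Sum.inl f})
    ((isOpen_set_pi finite_univ fun i _ => (hW i).1).prod (iso_open _ f))
    ((univ_pi_nonempty_iff.2 fun i => (hW i).2).prod (singleton_nonempty _))
  obtain rfl : y = Sum.inl f := h5
  rcases o with _ | n
  · obtain ⟨k, hk⟩ : (a, none) ∈ range c := hc ▸ mem_insert_of_mem _ h6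
    rcases h7.2 with h8 | ⟨_, h8, h9⟩
    · cases h8
    · cases h9
      refine absurd ?_ (h8 k)
      have : a = (c k).1 := by rw [hk]
      subst this
      exact ⟨subset_rfl, Nat.lt_succ_self _⟩
  · rcases h7.2 with h8 | ⟨_, h8, h9⟩
    · cases h8
    · cases h9
      exact ⟨n, fun i => ⟨x i, h4 i trivial, sUnion_mono h8.1 (h7.1 i trivial)⟩⟩

theorem ws (h : ProdWL X) : WS X := by
  intro 𝓤 hU
  choose f hf using fun k m => sel h (fun n => 𝓤 (n + k)) (fun n => hU _) m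
  refine ⟨fun n => ⋃ k ∈ Iic n, ⋃ m ∈ Iic n, ((f k m).1 (n - k)).1, fun n => ⟨?_, ?_⟩, ?_⟩
  · refine iUnion₂_subset fun k hk => iUnion₂_subset fun m _ => ?_
    have : _ ⊆ 𝓤 (n - k + k) := ((f k m).2 (n - k)).1
    rwa [Nat.sub_add_cancel hk] at this
  · exact (finite_Iic n).biUnion fun k _ => (finite_Iic n).biUnion fun m _ => ((f k m).2 _).2
  · intro 𝓕 hF hF2
    obtain ⟨m, W, -, rfl⟩ := hF.fin_param
    refine infinite_of_forall_exists_gt fun N => ?_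
    obtain ⟨n, hn⟩ := hf (N + m + 1) m W fun i => hF2 _ ⟨i, rfl⟩
    refine ⟨n + (N + m + 1), ?_, by omega⟩
    rintro _ ⟨i, rfl⟩
    refine (hn i).mono (inter_subset_inter_right _ (sUnion_mono fun U hU' => ?_))
    simp only [mem_iUnion]
    exact ⟨N + m + 1, by simp, m, by simp; omega, by simpa using hU'⟩

theorem result (X : Type u) [TopologicalSpace X] (h : ProdWL X) : WS X := ws h

end Pool.Agent.Results.MP_6a28f0_gt.Scheepers
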